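import Pool.Agent.MP_c69980_ag.H43.Spec4

/-!
Three circles, normalisation of a disc, and a covering lemma.
-/

set_option autoImplicit false

namespace Pool.Agent.MP_c69980_ag.H43

open H60 Finset Filter Topology Metric Real

/-- Three circles for a scalar function. -/
lemma three_pt {f : ℂ → ℂ} {R ρ A B : ℝ} (hf : DifferentiableOn ℂ f (ball 0 R)) (h1 : 1 < ρ)
    (hR : ρ ^ 2 < R) (hA : ∀ z, ‖z‖ ≤ 1 → ‖f z‖ ≤ A) (hB : ∀ z, ‖z‖ ≤ ρ ^ 2 → ‖f z‖ ≤ B)
    {w : ℂ} (hw : ‖w‖ = ρ) : ‖f w‖ ^ 2 ≤ A * B := by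
  have hA0 : 0 ≤ A := (norm_nonneg _).trans (hA 0 (by simp))
  have hB0 : 0 ≤ B := (norm_nonneg _).trans (hB 0 (by simp [sq_nonneg]))
  have hw0 : w ≠ 0 := fun h => by rw [h, norm_zero] at hw; linarith
  let U : Set ℂ := {z | 1 < ‖z‖ ∧ ‖z‖ < ρ ^ 2}
  have hU : IsOpen U := (isOpen_lt continuous_const continuous_norm).inter
    (isOpen_lt continuous_norm continuous_const)
  have hcl : ∀ z ∈ closure U, 1 ≤ ‖z‖ ∧ ‖z‖ ≤ ρ ^ 2 := fun z hz =>
    closure_minimal (t := {z : ℂ | 1 ≤ ‖z‖ ∧ ‖z‖ ≤ ρ ^ 2}) (fun _ h => ⟨h.1.le, h.2.le⟩)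
      ((isClosed_le continuous_const continuous_norm).inter
        (isClosed_le continuous_norm continuous_const)) hz
  have hn : ∀ z : ℂ, ‖w ^ 2 / z‖ = ρ ^ 2 / ‖z‖ := fun z => by rw [norm_div, norm_pow, hw]
  have hd : DifferentiableOn ℂ (fun z => f z * f (w ^ 2 / z)) (closure U) := by
    refine (hf.mono fun z hz => mem_ball_zero_iff.2 ((hcl z hz).2.trans_lt hR)).mul
      (hf.comp ((differentiableOn_const _).div differentiableOn_id fun z hz h => ?_) fun z hz => ?_)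
    · have := (hcl z hz).1
      rw [show z = 0 from h, norm_zero] at this
      linarith
    · rw [mem_ball_zero_iff, hn]
      exact (div_le_self (sq_nonneg ρ) (hcl z hz).1).trans_lt hR
  have := Complex.norm_le_of_forall_mem_frontier_norm_le (U := U)
    ((isBounded_ball (x := (0 : ℂ)) (r := ρ ^ 2)).subset fun z hz => mem_ball_zero_iff.2 hz.2)
    hd.diffContOnCl (C := A * B) (fun z hz => by
      rw [hU.frontier_eq] at hz
      obtain ⟨a1, a2⟩ := hcl z hz.1
      rw [norm_mul]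
      rcases a1.eq_or_lt with h | h
      · exact mul_le_mul (hA z h.ge) (hB _ (by rw [hn, ← h, div_one])) (norm_nonneg _) hA0
      · have h' : ‖z‖ = ρ ^ 2 := a2.antisymm (not_lt.1 fun h' => hz.2 ⟨h, h'⟩)
        rw [mul_comm A]
        exact mul_le_mul (hB z a2) (hA _ (by rw [hn, h', div_self (by positivity)]))
          (norm_nonneg _) hB0)
    (z := w) (subset_closure ⟨by rwa [hw], by rw [hw]; nlinarith⟩)
  rwa [sq w, mul_div_cancel_right₀ _ hw0, norm_mul, ← sq] at this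

theorem sThree : SThree := by
  intro N p R hp
  refine ⟨fun ρ h1 hR => ?_, fun hR h1 => ?_⟩
  · rcases h1.eq_or_lt with rfl | h1
    · rw [one_pow, sq]
    have r1 : ρ < R := by nlinarith
    have r2 : 1 < R := h1.trans r1
    have hA : 0 ≤ sc p 1 := (norm_nonneg _).trans (le_sc hp r2 (z := 0) (by simp))
    have hB : 0 ≤ sc p (ρ ^ 2) := (norm_nonneg _).trans (le_sc hp hR (z := 0) (by simp [sq_nonneg]))
    have h0 : 0 ≤ sc p ρ := (norm_nonneg _).trans (le_sc hp r1 (z := 0) (by simp; linarith))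
    rw [← le_sqrt h0 (mul_nonneg hA hB)]
    refine sc_le (by linarith) fun z hz => (pi_norm_le_iff_of_nonneg (sqrt_nonneg _)).2 fun i => ?_
    have hf : DifferentiableOn ℂ (fun z => (p z - p 0) i) (ball 0 R) :=
      differentiableOn_pi.1 (hp.sub_const (p 0)) i
    refine Complex.norm_le_of_forall_mem_frontier_norm_le (U := ball 0 ρ) isBounded_ball
      (hf.mono (closure_ball_subset_closedBall.trans (closedBall_subset_ball r1))).diffContOnCl
      (fun w hw => ?_) ?_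
    · rw [le_sqrt (norm_nonneg _) (mul_nonneg hA hB)]
      exact three_pt hf h1 hR (fun z hz => (norm_le_pi_norm _ i).trans (le_sc hp r2 hz))
        (fun z hz => (norm_le_pi_norm _ i).trans (le_sc hp hR hz))
        (by simpa using frontier_ball_subset_sphere hw)
    · rw [closure_ball _ (by linarith)]
      exact mem_closedBall_zero_iff.2 hz
  · let F : Set.Icc (0 : ℝ) 1 → closedBall (0 : ℂ) 1 → ℝ := fun ρ z => ‖p (ρ.1 * z.1) - p 0‖
    have hF : Continuous ↿F := by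
      refine ((hp.continuousOn.comp_continuous (f := fun q : Set.Icc (0 : ℝ) 1 ×
        closedBall (0 : ℂ) 1 => (q.1.1 : ℂ) * q.2.1) (by fun_prop) fun q => ?_).sub
          continuous_const).norm
      rw [mem_ball_zero_iff, norm_mul, Complex.norm_real, norm_of_nonneg q.1.2.1]
      exact (mul_le_one₀ q.1.2.2 (norm_nonneg _) (mem_closedBall_zero_iff.1 q.2.2)).trans_lt hR
    have hc := isCompact_univ.continuous_sSup hF
    have he : ∀ ρ : Set.Icc (0 : ℝ) 1, sSup (F ρ '' Set.univ) = sc (fun s => p (ρ.1 * s)) 1 := by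
      intro ρ
      rw [sc, Set.image_univ, mul_zero, Set.image_eq_range]
    simp only [he] at hc
    have g0 : sc (fun s => p ((0 : ℝ) * s)) 1 ≤ 0 := sc_le zero_le_one fun z _ => by simp
    have g1 : 1 ≤ sc (fun s => p ((1 : ℝ) * s)) 1 := by
      have := deriv_le_sc hp one_pos hR
      simp only [Complex.ofReal_one, one_mul] at this ⊢
      exact h1.trans this
    obtain ⟨ρ, hρ⟩ := intermediate_value_univ (⟨0, by simp⟩ : Set.Icc (0 : ℝ) 1) ⟨1, by simp⟩ hc
      ⟨g0.trans zero_le_one, g1⟩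
    refine ⟨ρ, ρ.2.1.lt_of_ne fun h => ?_, ρ.2.2, hρ⟩
    simp only [← h] at hρ
    linarith

/-- The logarithm of a truncated distance is bounded by a sum over scales. -/
lemma cov_log {x₀ : ℝ} (hx : 0 ≤ x₀) (d : ℝ) (M : ℕ) : -log (max (exp (-(4 ^ M * x₀))) d) ≤
    4 * x₀ + ∑ m ∈ range (M - 1), if d ≤ exp (-(4 ^ (m + 1) * x₀)) then 12 * (4 ^ m * x₀) else 0 := by
  have key : ∀ M : ℕ, -log (max (exp (-(4 ^ M * x₀))) d) ≤ 4 ^ M * x₀ := fun M => by
    rw [neg_le, le_log_iff_exp_le (lt_max_of_lt_left (exp_pos _))]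
    exact le_max_left _ _
  rcases M with _ | M
  · simpa using (key 0).trans (by simp; linarith)
  rw [Nat.add_sub_cancel]
  induction M with
  | zero => simpa using key 1
  | succ M ih =>
    rw [sum_range_succ, ← add_assoc]
    split_ifs with h
    · rw [max_eq_left h, log_exp, neg_neg] at ih
      refine (key _).trans ?_
      rw [pow_succ, pow_succ] at *
      linarith
    · have h' := (not_le.1 h).le
      rw [max_eq_right h'] at ih
      rw [add_zero, max_eq_right (le_trans _ h')]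
      · exact ih
      · rw [exp_le_exp, neg_le_neg_iff]
        gcongr
        · norm_num
        · omega

/-- A good scale at a point. -/
lemma cov_scale {N' : ℕ} (d : Fin N' → ℝ) (ν : ℕ → ℕ) {x₀ B R₀ : ℝ} {l I : ℕ} (hx : 1 ≤ x₀)
    (hR : 1 ≤ R₀) (hl : 0 < l) (hν : 1 ≤ ν I)
    (hI : 2 * (B + N' * (log R₀ + 4 * x₀)) < 2 ^ I * x₀)
    (h : ∀ m ≤ I, l * ν m * (4 ^ m * x₀) - B ≤ ∑ j, log (R₀ / max (exp (-(4 ^ m * x₀))) (d j))) :
    ∃ k : ℕ, l * ν k ≤ 12 * (univ.filter fun j => d j ≤ exp (-(4 ^ (k + 1) * x₀))).card := by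
  by_contra hc
  simp only [not_exists, not_le] at hc
  obtain ⟨M, hM, hmax⟩ := exists_max_image (range (I + 1)) (fun m => 2 ^ m * ν m) ⟨0, by simp⟩
  rw [mem_range, Nat.lt_succ_iff] at hM
  have x0 : 0 ≤ x₀ := by linarith
  have h1 : ∑ j, log (R₀ / max (exp (-(4 ^ M * x₀))) (d j)) ≤ N' * (log R₀ + 4 * x₀) +
      ∑ m ∈ range (M - 1), (univ.filter fun j => d j ≤ exp (-(4 ^ (m + 1) * x₀))).card *
        (12 * (4 ^ m * x₀)) := by
    refine (sum_le_sum (g := fun j => log R₀ + 4 * x₀ + ∑ m ∈ range (M - 1),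
      if d j ≤ exp (-(4 ^ (m + 1) * x₀)) then 12 * (4 ^ m * x₀) else 0) fun j _ => ?_).trans_eq ?_
    · rw [log_div (by linarith) (lt_max_of_lt_left (exp_pos _)).ne']
      linarith [cov_log x0 (d j) M]
    · rw [sum_add_distrib, sum_comm]
      simp only [sum_const, card_univ, Fintype.card_fin, nsmul_eq_mul, ← sum_filter]
  have h2 : ∀ m ∈ range (M - 1), ((univ.filter fun j => d j ≤ exp (-(4 ^ (m + 1) * x₀))).card : ℝ) *
      (12 * (4 ^ m * x₀)) ≤ l * (2 ^ M * ν M) * x₀ * 2 ^ m := fun m hm => by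
    have a1 : (12 : ℝ) * (univ.filter fun j => d j ≤ exp (-(4 ^ (m + 1) * x₀))).card ≤ l * ν m := by
      exact_mod_cast (hc m).le
    have a2 : (2 : ℝ) ^ m * ν m ≤ 2 ^ M * ν M := by
      exact_mod_cast hmax m (by rw [mem_range] at *; omega)
    calc _ = 12 * ((univ.filter fun j => d j ≤ exp (-(4 ^ (m + 1) * x₀))).card : ℝ) *
          (4 ^ m * x₀) := by ring
      _ ≤ l * ν m * (4 ^ m * x₀) := by gcongr
      _ = l * (2 ^ m * ν m) * x₀ * 2 ^ m := by
          rw [show (4 : ℝ) = 2 * 2 by norm_num, mul_pow]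
          ring
      _ ≤ _ := by gcongr
  have h3 : 2 * ∑ m ∈ range (M - 1), (2 : ℝ) ^ m ≤ 2 ^ M := by
    rcases M with _ | M
    · simp
    · rw [Nat.add_sub_cancel, geom_sum_eq (by norm_num), pow_succ]
      linarith
  have h4 := sum_le_sum h2
  rw [← mul_sum] at h4
  have h5 : (2 : ℝ) ^ I ≤ 2 ^ M * ν M := by
    exact_mod_cast (Nat.le_mul_of_pos_right _ hν).trans (hmax I (by simp))
  have h6 := h M hM
  rw [show l * ν M * (4 ^ M * x₀) = l * (2 ^ M * ν M) * x₀ * 2 ^ M by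
    rw [show (4 : ℝ) = 2 * 2 by norm_num, mul_pow]
    ring] at h6
  generalize (2 : ℝ) ^ M * ν M = W at *
  have hW : 0 ≤ W := le_trans (by positivity) h5
  have l1 : (1 : ℝ) ≤ l := by exact_mod_cast hl
  have h7 : l * W * x₀ * (2 * ∑ m ∈ range (M - 1), (2 : ℝ) ^ m) ≤ l * W * x₀ * 2 ^ M := by gcongr
  have h8 : 1 * 2 ^ I * x₀ * 1 ≤ l * W * x₀ * 2 ^ M := by
    gcongr
    exact one_le_pow₀ one_le_two
  linarith

theorem sCov : SCov := by
  classical
  intro N N' c b s ω x₀ B R₀ l I hω ω0 hx hR _ hl hI h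
  have lip : ∀ z w, ω z ≤ ω w + ‖z - w‖ := fun z w => by
    simpa [dist_eq_norm] using hω.le_add_mul z w
  have h1 : ∀ i : Fin N, ∃ k : ℕ, i ∈ s →
      l * (univ.filter fun i' => ‖c i' - c i‖ ≤ exp (-(4 ^ k * x₀))).card ≤
        12 * (univ.filter fun j => ‖b j - c i‖ ≤ exp (-(4 ^ (k + 1) * x₀))).card := fun i => by
    by_cases hi : i ∈ s
    · exact (cov_scale (fun j => ‖b j - c i‖)
        (fun m => (univ.filter fun i' => ‖c i' - c i‖ ≤ exp (-(4 ^ m * x₀))).card) hx hR hl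
        (card_pos.2 ⟨i, by simp [exp_nonneg]⟩) hI (h i hi)).imp fun _ h _ => h
    · exact ⟨0, fun h => absurd h hi⟩
  choose k hk using h1
  have e0 : ∀ m : ℕ, exp (-(4 ^ m * x₀)) ≤ exp (-x₀) := fun m => by
    rw [exp_le_exp, neg_le_neg_iff]
    exact le_mul_of_one_le_left (by linarith) (one_le_pow₀ (by norm_num))
  have e1 : ∀ m : ℕ, 4 * exp (-(4 ^ (m + 1) * x₀)) ≤ exp (-(4 ^ m * x₀)) := fun m => by
    have a1 : 1 ≤ 4 ^ m * x₀ := one_le_mul_of_one_le_of_one_le (one_le_pow₀ (by norm_num)) hx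
    have a2 := add_one_le_exp (3 * (4 ^ m * x₀))
    calc _ ≤ exp (3 * (4 ^ m * x₀)) * exp (-(4 ^ (m + 1) * x₀)) := by gcongr; linarith
      _ = _ := by rw [← exp_add, pow_succ]; ring_nf
  obtain ⟨u, hu, hd, hcov⟩ := Vitali.exists_disjoint_subfamily_covering_enlargement_closedBall
    (s : Set (Fin N)) c (fun i => exp (-(4 ^ (k i + 1) * x₀))) _ (fun i _ => e0 _) 4 (by norm_num)
  lift u to Finset (Fin N) using u.toFinite
  have h2 : ∑ i ∈ s, ω (c i) ≤
      ∑ a ∈ u, ∑ i ∈ univ.filter fun i => ‖c i - c a‖ ≤ exp (-(4 ^ k a * x₀)), ω (c i) := by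
    simp only [sum_filter]
    rw [sum_comm]
    refine (sum_le_sum fun i hi => ?_).trans (sum_le_sum_of_subset_of_nonneg (subset_univ s)
      fun i _ _ => sum_nonneg fun a _ => ite_nonneg (ω0 _) le_rfl)
    obtain ⟨a, ha, hs⟩ := hcov i hi
    have := mem_closedBall_iff_norm.1 (hs (mem_closedBall_self (exp_nonneg _)))
    refine le_trans ?_ (single_le_sum (fun a _ => ite_nonneg (ω0 _) le_rfl) ha)
    rw [if_pos (this.trans (e1 _))]
  have h3 : ∀ a ∈ u,
      l * ∑ i ∈ univ.filter fun i => ‖c i - c a‖ ≤ exp (-(4 ^ k a * x₀)), ω (c i) ≤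
      12 * ∑ j ∈ univ.filter fun j => ‖b j - c a‖ ≤ exp (-(4 ^ (k a + 1) * x₀)),
        (ω (b j) + 2 * exp (-x₀)) := fun a ha => by
    have a1 := sum_le_card_nsmul (univ.filter fun i => ‖c i - c a‖ ≤ exp (-(4 ^ k a * x₀)))
      (fun i => ω (c i)) (ω (c a) + exp (-x₀)) fun i hi => by
        linarith [lip (c i) (c a), (mem_filter.1 hi).2, e0 (k a)]
    have a2 := card_nsmul_le_sum (univ.filter fun j => ‖b j - c a‖ ≤ exp (-(4 ^ (k a + 1) * x₀)))
      (fun j => ω (b j) + 2 * exp (-x₀)) (ω (c a) + exp (-x₀)) fun j hj => by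
        linarith [lip (c a) (b j), (mem_filter.1 hj).2, e0 (k a + 1), norm_sub_rev (c a) (b j)]
    have a3 : (l : ℝ) * (univ.filter fun i' => ‖c i' - c a‖ ≤ exp (-(4 ^ k a * x₀))).card ≤
        12 * (univ.filter fun j => ‖b j - c a‖ ≤ exp (-(4 ^ (k a + 1) * x₀))).card := by
      exact_mod_cast hk a (hu ha)
    have a4 : 0 ≤ ω (c a) + exp (-x₀) := add_nonneg (ω0 _) (exp_nonneg _)
    rw [nsmul_eq_mul] at a1 a2
    calc _ ≤ l * (_ * (ω (c a) + exp (-x₀))) := by gcongr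
      _ ≤ 12 * (_ * (ω (c a) + exp (-x₀))) := by
        rw [← mul_assoc, ← mul_assoc]
        exact mul_le_mul_of_nonneg_right a3 a4
      _ ≤ _ := by gcongr
  have h4 : ∑ a ∈ u, ∑ j ∈ univ.filter fun j => ‖b j - c a‖ ≤ exp (-(4 ^ (k a + 1) * x₀)),
      (ω (b j) + 2 * exp (-x₀)) ≤ ∑ j, (ω (b j) + 2 * exp (-x₀)) := by
    rw [← sum_biUnion]
    · exact sum_le_sum_of_subset_of_nonneg (subset_univ _) fun j _ _ => by
        linarith [ω0 (b j), exp_nonneg (-x₀)]
    · intro a ha a' ha' hne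
      refine disjoint_left.2 fun j h1 h2 => ?_
      exact Set.disjoint_left.1 (hd ha ha' hne) (mem_closedBall_iff_norm.2 (mem_filter.1 h1).2)
        (mem_closedBall_iff_norm.2 (mem_filter.1 h2).2)
  have h5 := sum_le_sum h3
  rw [← mul_sum, ← mul_sum] at h5
  rw [sum_add_distrib (s := univ), sum_const, card_univ, Fintype.card_fin, nsmul_eq_mul] at h4
  have h6 : (l : ℝ) * ∑ i ∈ s, ω (c i) ≤ _ := mul_le_mul_of_nonneg_left h2 (Nat.cast_nonneg l)
  have h7 : 0 ≤ N' * exp (-x₀) := by positivity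
  linarith

end Pool.Agent.MP_c69980_ag.H43
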